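import Mathlib
import Pool.Agent.H425R3.JL.P1

open Filter Topology
open Pool.Agent.H383.AP

namespace Pool.Agent.H425R3.MS

open Pool.Agent.H383 Pool.Agent.H425R3.JL

/-- sums of square roots: the norm inequality -/
lemma norm4p {A B : ℕ} (hns : ¬ (IsSquare A ∧ IsSquare B)) (p : ℤ) :
    1 ≤ |(√(A:ℝ) + √(B:ℝ)) - p| * (2 * (√(A:ℝ) + √(B:ℝ)) + 1)^3 := by
  set x : ℝ := √(A:ℝ) with hx
  set y : ℝ := √(B:ℝ) with hy
  have hx0 : 0 ≤ x := Real.sqrt_nonneg _
  have hy0 : 0 ≤ y := Real.sqrt_nonneg _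
  have hW1 : (1:ℝ) ≤ 2 * (x + y) + 1 := by linarith
  by_cases hbig : 1 ≤ |x + y - p|
  · have : (1:ℝ) ≤ (2 * (x + y) + 1)^3 := one_le_pow₀ hW1
    nlinarith
  push Not at hbig
  have hp : |(p:ℝ)| ≤ x + y + 1 := by
    have h1 := abs_lt.mp hbig
    rw [abs_le]; constructor <;> linarith
  have hp' := abs_le.mp hp
  have hx2 : x^2 = A := Real.sq_sqrt (Nat.cast_nonneg A)
  have hy2 : y^2 = B := Real.sq_sqrt (Nat.cast_nonneg B)
  by_cases hAB : A = B
  · subst hAB
    have hnA : ¬ IsSquare A := fun h => hns ⟨h, h⟩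
    have hxy : y = x := rfl
    rw [hxy]
    rw [hxy] at hp' hW1
    set Z : ℤ := 4 * A - p^2 with hZ
    have hprod : (x + x - p) * (x + x + p) = (Z:ℝ) := by
      rw [hZ]; push_cast; rw [← hx2]; ring
    have hZ0 : Z ≠ 0 := by
      intro h
      rw [hZ] at h
      have h1 : (p:ℤ)^2 = 4 * A := by linarith
      have h2 : (2:ℤ) ∣ p := by
        have : (2:ℤ) ∣ p^2 := ⟨2 * A, by rw [h1]; ring⟩
        exact Int.prime_two.dvd_of_dvd_pow this
      obtain ⟨k, hk⟩ := h2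
      rw [hk] at h1
      have h3 : k * k = (A:ℤ) := by linarith
      apply hnA
      refine ⟨k.natAbs, ?_⟩
      have : ((k.natAbs * k.natAbs : ℕ) : ℤ) = (A:ℤ) := by
        rw [Int.natCast_mul, Int.natAbs_mul_self']; exact h3
      exact_mod_cast this.symm
    have hZ1 : (1:ℝ) ≤ |(Z:ℝ)| := by
      have : (1:ℤ) ≤ |Z| := Int.one_le_abs hZ0
      exact_mod_cast this
    rw [← hprod, abs_mul] at hZ1
    have b2 : |x + x + p| ≤ (2 * (x + x) + 1)^3 := by
      have : |x + x + p| ≤ 2 * (x + x) + 1 := by rw [abs_le]; constructor <;> linarith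
      refine this.trans ?_
      calc 2 * (x + x) + 1 = (2 * (x + x) + 1)^1 := (pow_one _).symm
        _ ≤ (2 * (x + x) + 1)^3 := pow_le_pow_right₀ hW1 (by norm_num)
    calc (1:ℝ) ≤ |x + x - p| * |x + x + p| := hZ1
      _ ≤ _ := mul_le_mul_of_nonneg_left b2 (abs_nonneg _)
  set Z : ℤ := (A + p^2 - B)^2 - 4 * A * p^2 with hZ
  have hprod : (x + y - p) * ((x - y - p) * (-x - y - p) * (-x + y - p)) = (Z:ℝ) := by
    rw [hZ]; push_cast
    have : (x + y - p) * ((x - y - p) * (-x - y - p) * (-x + y - p)) = (x^2 + p^2 - y^2)^2 - 4 * x^2 * p^2 := by ring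
    rw [this, hx2, hy2]
  have h1 : x - y - p ≠ 0 := by
    intro h
    apply ne_of_not_sq (q := 1) le_rfl hAB hns (u := 1) (v := -1) (Or.inl (by norm_num)) (Or.inr (by norm_num)) p
    push_cast; linarith
  have h2 : x + y - p ≠ 0 := by
    intro h
    apply ne_of_not_sq (q := 1) le_rfl hAB hns (u := 1) (v := 1) (Or.inl (by norm_num)) (Or.inl (by norm_num)) p
    push_cast; linarith
  have h3 : -x - y - p ≠ 0 := by
    intro h
    apply ne_of_not_sq (q := 1) le_rfl hAB hns (u := -1) (v := -1) (Or.inr (by norm_num)) (Or.inr (by norm_num)) p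
    push_cast; linarith
  have h4 : -x + y - p ≠ 0 := by
    intro h
    apply ne_of_not_sq (q := 1) le_rfl hAB hns (u := -1) (v := 1) (Or.inr (by norm_num)) (Or.inl (by norm_num)) p
    push_cast; linarith
  have hZ0 : Z ≠ 0 := by
    intro h
    rw [h, Int.cast_zero] at hprod
    exact (mul_ne_zero h2 (mul_ne_zero (mul_ne_zero h1 h3) h4)) hprod
  have hZ1 : (1:ℝ) ≤ |(Z:ℝ)| := by
    have : (1:ℤ) ≤ |Z| := Int.one_le_abs hZ0
    exact_mod_cast this
  rw [← hprod, abs_mul, abs_mul, abs_mul] at hZ1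
  have b2 : |x - y - p| ≤ 2 * (x + y) + 1 := by rw [abs_le]; constructor <;> linarith
  have b3 : |-x - y - p| ≤ 2 * (x + y) + 1 := by rw [abs_le]; constructor <;> linarith
  have b4 : |-x + y - p| ≤ 2 * (x + y) + 1 := by rw [abs_le]; constructor <;> linarith
  calc (1:ℝ) ≤ |x + y - p| * (|x - y - p| * |-x - y - p| * |-x + y - p|) := hZ1
    _ ≤ |x + y - p| * ((2 * (x + y) + 1) * (2 * (x + y) + 1) * (2 * (x + y) + 1)) := by gcongr
    _ = _ := by ring

/-- sums of cosines -/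
lemma cos_sum {θ W : ℝ} (hW : ∀ p : ℤ, 1 ≤ |θ - p| * W) (ψ : ℝ) (N : ℕ) :
    |∑ n ∈ Finset.range N, Real.cos (2 * Real.pi * (n * θ) + ψ)| ≤ W := by
  set z : ℂ := Complex.exp (((2 * Real.pi * θ : ℝ) : ℂ) * Complex.I) with hz
  set p : ℤ := round θ with hp
  have hpi := Real.pi_pos
  have h1 : |θ - p| ≤ 1/2 := abs_sub_round θ
  have h2 := hW p
  have h3 : 0 < |θ - p| := by
    rcases (abs_nonneg (θ - p)).eq_or_lt with h | h
    · rw [← h, zero_mul] at h2; linarith
    · exact h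
  have hW0 : 0 < W := by
    by_contra hcon
    push Not at hcon
    nlinarith
  have hsin : 2 * |θ - p| ≤ |Real.sin (Real.pi * θ)| := by
    have e : |Real.sin (Real.pi * θ)| = |Real.sin (Real.pi * (θ - p))| := by
      have : Real.pi * (θ - p) = Real.pi * θ - p * Real.pi := by ring
      rw [this, Real.sin_sub_int_mul_pi, abs_mul, abs_zpow, abs_neg, abs_one, one_zpow, one_mul]
    rw [e]
    have := Real.mul_abs_le_abs_sin (x := Real.pi * (θ - p)) (by
      rw [abs_mul, abs_of_pos hpi]; nlinarith)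
    refine le_trans (le_of_eq ?_) this
    rw [abs_mul, abs_of_pos hpi]
    field_simp
  have hz1 : 4 * |θ - p| ≤ ‖z - 1‖ := by
    have e : ‖z - 1‖ = 2 * |Real.sin (Real.pi * θ)| := by
      rw [hz, mul_comm (((2 * Real.pi * θ : ℝ)) : ℂ), Complex.norm_exp_I_mul_ofReal_sub_one, Real.norm_eq_abs, abs_mul, abs_two]
      congr 3; ring
    rw [e]; linarith
  have hzne : z ≠ 1 := by
    intro h
    rw [h, sub_self, norm_zero] at hz1
    linarith
  have hz0 : 0 < ‖z - 1‖ := by linarith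
  have hzn : ‖z‖ = 1 := Complex.norm_exp_ofReal_mul_I _
  have hsum : ∑ n ∈ Finset.range N, Real.cos (2 * Real.pi * (n * θ) + ψ) =
      (Complex.exp ((ψ:ℂ) * Complex.I) * ∑ n ∈ Finset.range N, z^n).re := by
    rw [Finset.mul_sum, Complex.re_sum]
    apply Finset.sum_congr rfl
    intro n _
    rw [hz, ← Complex.exp_nat_mul, ← Complex.exp_add]
    have : (ψ:ℂ) * Complex.I + (n:ℂ) * (((2 * Real.pi * θ : ℝ) : ℂ) * Complex.I) = ((2 * Real.pi * (n * θ) + ψ : ℝ) : ℂ) * Complex.I := by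
      push_cast; ring
    rw [this, Complex.exp_ofReal_mul_I_re]
  rw [hsum]
  refine (Complex.abs_re_le_norm _).trans ?_
  rw [norm_mul, Complex.norm_exp_ofReal_mul_I, one_mul, geom_sum_eq hzne, norm_div, div_le_iff₀ hz0]
  have h5 : ‖z^N - 1‖ ≤ 2 := by
    refine (norm_sub_le _ _).trans ?_
    rw [norm_pow, hzn, one_pow, norm_one]; norm_num
  nlinarith

end Pool.Agent.H425R3.MS
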