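import Mathlib
import Pool.Agent.H425R3.MS.A1
import Pool.Agent.H425R3.JL.Q2

open Filter Topology
open Pool.Agent.H383.AP Pool.Agent.H383.Gen

namespace Pool.Agent.H425R3.MS

open Pool.Agent.H383 Pool.Agent.H425R3.JL

variable {a : ℕ → ℝ} {φ X : ℝ} {κ : ℕ}

/-- resonant factor -/
noncomputable def cf (φ X : ℝ) (κ m : ℕ) : ℝ := open Classical in if IsSquare (κ * m) then Real.cos (2 * Real.pi * (X * √(m:ℝ)) - φ) else 0

lemma sqrt_mul' (κ m : ℕ) : √(κ:ℝ) * √(m:ℝ) = √((κ * m : ℕ):ℝ) := by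
  push_cast; rw [Real.sqrt_mul (Nat.cast_nonneg κ)]

/-- one pair of frequencies -/
lemma pair_bd (M : ℕ) {m m' : ℕ} (hm : m ≤ M^2) (hm' : m' ≤ M^2) (N : ℕ) :
    |∑ n ∈ Finset.range N, (Real.cos (2 * Real.pi * ((X + n * √(κ:ℝ)) * √(m:ℝ)) - φ) * Real.cos (2 * Real.pi * ((X + n * √(κ:ℝ)) * √(m':ℝ)) - φ))
      - N * (cf φ X κ m * cf φ X κ m' + (open Classical in if m = m' ∧ ¬ IsSquare (κ * m) then 1/2 else 0))| ≤ (4 * √(κ:ℝ) * M + 1)^3 := by
  classical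
  have hD : (0:ℝ) ≤ (4 * √(κ:ℝ) * M + 1)^3 := by positivity
  have hsm : √(m:ℝ) ≤ M := by
    rw [Real.sqrt_le_left (by positivity)]; exact_mod_cast hm
  have hsm' : √(m':ℝ) ≤ M := by
    rw [Real.sqrt_le_left (by positivity)]; exact_mod_cast hm'
  have hW : (2 * (√((κ * m : ℕ):ℝ) + √((κ * m' : ℕ):ℝ)) + 1)^3 ≤ (4 * √(κ:ℝ) * M + 1)^3 := by
    rw [← sqrt_mul', ← sqrt_mul']
    apply pow_le_pow_left₀ (by positivity)
    nlinarith [Real.sqrt_nonneg (κ:ℝ), mul_le_mul_of_nonneg_left hsm (Real.sqrt_nonneg (κ:ℝ)), mul_le_mul_of_nonneg_left hsm' (Real.sqrt_nonneg (κ:ℝ))]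
  by_cases hsq : IsSquare (κ * m) ∧ IsSquare (κ * m')
  · -- resonance
    have hcos : ∀ (j : ℕ), IsSquare (κ * j) → ∀ n : ℕ, Real.cos (2 * Real.pi * ((X + n * √(κ:ℝ)) * √(j:ℝ)) - φ) = Real.cos (2 * Real.pi * (X * √(j:ℝ)) - φ) := by
      intro j hj n
      obtain ⟨k, hk⟩ := hj
      have h1 : √(κ:ℝ) * √(j:ℝ) = k := by
        rw [sqrt_mul', hk]; push_cast; exact Real.sqrt_mul_self (Nat.cast_nonneg k)
      have h2 : 2 * Real.pi * ((X + n * √(κ:ℝ)) * √(j:ℝ)) - φ = 2 * Real.pi * (X * √(j:ℝ)) - φ + ((n * k : ℕ):ℝ) * (2 * Real.pi) := by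
        push_cast; rw [← h1]; ring
      rw [h2, Real.cos_add_nat_mul_two_pi]
    have e1 : ∑ n ∈ Finset.range N, (Real.cos (2 * Real.pi * ((X + n * √(κ:ℝ)) * √(m:ℝ)) - φ) * Real.cos (2 * Real.pi * ((X + n * √(κ:ℝ)) * √(m':ℝ)) - φ)) =
        N * (cf φ X κ m * cf φ X κ m') := by
      unfold cf
      rw [if_pos hsq.1, if_pos hsq.2, Finset.sum_congr rfl (fun n _ => by rw [hcos m hsq.1 n, hcos m' hsq.2 n]), Finset.sum_const,
        Finset.card_range, nsmul_eq_mul]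
    rw [e1, if_neg (fun h => h.2 hsq.1), add_zero, sub_self, abs_zero]
    exact hD
  · have hcf : cf φ X κ m * cf φ X κ m' = 0 := by
      unfold cf
      by_cases h1 : IsSquare (κ * m)
      · rw [if_neg (fun h2 => hsq ⟨h1, h2⟩) (c := IsSquare (κ * m')), mul_zero]
      · rw [if_neg h1, zero_mul]
    rw [hcf, zero_add]
    -- product formula
    have hprod : ∀ n : ℕ, Real.cos (2 * Real.pi * ((X + n * √(κ:ℝ)) * √(m:ℝ)) - φ) * Real.cos (2 * Real.pi * ((X + n * √(κ:ℝ)) * √(m':ℝ)) - φ) =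
        1/2 * Real.cos (2 * Real.pi * (n * (√((κ * m : ℕ):ℝ) - √((κ * m' : ℕ):ℝ))) + 2 * Real.pi * (X * √(m:ℝ) - X * √(m':ℝ))) +
        1/2 * Real.cos (2 * Real.pi * (n * (√((κ * m : ℕ):ℝ) + √((κ * m' : ℕ):ℝ))) + (2 * Real.pi * (X * √(m:ℝ) + X * √(m':ℝ)) - 2 * φ)) := by
      intro n
      rw [← sqrt_mul', ← sqrt_mul']
      set x := 2 * Real.pi * ((X + n * √(κ:ℝ)) * √(m:ℝ)) - φ with hx
      set y := 2 * Real.pi * ((X + n * √(κ:ℝ)) * √(m':ℝ)) - φ with hy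
      have e1 : 2 * Real.pi * (n * (√(κ:ℝ) * √(m:ℝ) - √(κ:ℝ) * √(m':ℝ))) + 2 * Real.pi * (X * √(m:ℝ) - X * √(m':ℝ)) = x - y := by rw [hx, hy]; ring
      have e2 : 2 * Real.pi * (n * (√(κ:ℝ) * √(m:ℝ) + √(κ:ℝ) * √(m':ℝ))) + (2 * Real.pi * (X * √(m:ℝ) + X * √(m':ℝ)) - 2 * φ) = x + y := by rw [hx, hy]; ring
      rw [e1, e2, Real.cos_sub x y, Real.cos_add x y]; ring
    rw [Finset.sum_congr rfl (fun n _ => hprod n), Finset.sum_add_distrib, ← Finset.mul_sum, ← Finset.mul_sum]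
    have hplus := cos_sum (θ := √((κ * m : ℕ):ℝ) + √((κ * m' : ℕ):ℝ)) (W := (4 * √(κ:ℝ) * M + 1)^3) (fun p =>
      (norm4p hsq p).trans (mul_le_mul_of_nonneg_left hW (abs_nonneg _)))
      (2 * Real.pi * (X * √(m:ℝ) + X * √(m':ℝ)) - 2 * φ) N
    by_cases hmm : m = m'
    · subst hmm
      have hns : ¬ IsSquare (κ * m) := fun h => hsq ⟨h, h⟩
      rw [if_pos ⟨rfl, hns⟩]
      have e3 : ∑ n ∈ Finset.range N, Real.cos (2 * Real.pi * (n * (√((κ * m : ℕ):ℝ) - √((κ * m : ℕ):ℝ))) + 2 * Real.pi * (X * √(m:ℝ) - X * √(m:ℝ))) = N := by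
        rw [Finset.sum_congr rfl (fun n _ => by rw [sub_self, sub_self, mul_zero, mul_zero, add_zero, Real.cos_zero]), Finset.sum_const,
          Finset.card_range, nsmul_eq_mul, mul_one]
      rw [e3]
      have : 1/2 * (N:ℝ) + 1/2 * ∑ n ∈ Finset.range N, Real.cos (2 * Real.pi * (n * (√((κ * m : ℕ):ℝ) + √((κ * m : ℕ):ℝ))) + (2 * Real.pi * (X * √(m:ℝ) + X * √(m:ℝ)) - 2 * φ)) - N * (1/2) =
        1/2 * ∑ n ∈ Finset.range N, Real.cos (2 * Real.pi * (n * (√((κ * m : ℕ):ℝ) + √((κ * m : ℕ):ℝ))) + (2 * Real.pi * (X * √(m:ℝ) + X * √(m:ℝ)) - 2 * φ)) := by ring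
      rw [this, abs_mul, abs_of_pos (by norm_num : (0:ℝ) < 1/2)]
      linarith
    · rw [if_neg (fun h => hmm h.1), mul_zero, sub_zero]
      rcases Nat.eq_zero_or_pos κ with h0 | h0
      · exact absurd ⟨⟨0, by rw [h0]; simp⟩, ⟨0, by rw [h0]; simp⟩⟩ hsq
      have hne : κ * m ≠ κ * m' := fun h => hmm (Nat.eq_of_mul_eq_mul_left h0 h)
      have hminus := cos_sum (θ := √((κ * m : ℕ):ℝ) - √((κ * m' : ℕ):ℝ)) (W := (4 * √(κ:ℝ) * M + 1)^3) (fun p => by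
        have h1 := norm4 (q := 1) le_rfl hne hsq p
        rw [Nat.cast_one, one_mul, mul_one] at h1
        exact h1.trans (mul_le_mul_of_nonneg_left hW (abs_nonneg _)))
        (2 * Real.pi * (X * √(m:ℝ) - X * √(m':ℝ))) N
      refine (abs_add_le _ _).trans ?_
      rw [abs_mul, abs_mul, abs_of_pos (by norm_num : (0:ℝ) < 1/2)]
      linarith

/-- the limit of the mean square of the model polynomial -/
noncomputable def cM (a : ℕ → ℝ) (φ X : ℝ) (κ M : ℕ) : ℝ :=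
  (∑ m ∈ Finset.Icc 1 (M^2), a m * cf φ X κ m)^2 + 1/2 * ∑ m ∈ Finset.Icc 1 (M^2), (open Classical in if IsSquare (κ * m) then 0 else a m ^ 2)

theorem U_sq_mean (a : ℕ → ℝ) (φ X : ℝ) (κ M N : ℕ) :
    |∑ n ∈ Finset.range N, (U a φ (X + n * √(κ:ℝ)) M)^2 - N * cM a φ X κ M| ≤
      (∑ m ∈ Finset.Icc 1 (M^2), |a m|)^2 * (4 * √(κ:ℝ) * M + 1)^3 := by
  classical
  set T := Finset.Icc 1 (M^2) with hT
  set c : ℕ → ℕ → ℝ := fun n m => Real.cos (2 * Real.pi * ((X + n * √(κ:ℝ)) * √(m:ℝ)) - φ) with hc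
  set d : ℕ → ℕ → ℝ := fun m m' => cf φ X κ m * cf φ X κ m' + (if m = m' ∧ ¬ IsSquare (κ * m) then 1/2 else 0) with hd
  have e1 : ∑ n ∈ Finset.range N, (U a φ (X + n * √(κ:ℝ)) M)^2 = ∑ m ∈ T, ∑ m' ∈ T, a m * a m' * ∑ n ∈ Finset.range N, c n m * c n m' := by
    have : ∀ n : ℕ, (U a φ (X + n * √(κ:ℝ)) M)^2 = ∑ m ∈ T, ∑ m' ∈ T, a m * a m' * (c n m * c n m') := by
      intro n
      unfold U
      rw [pow_two, Finset.sum_mul_sum]
      apply Finset.sum_congr rfl; intro m _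
      apply Finset.sum_congr rfl; intro m' _
      simp only [hc]; ring
    rw [Finset.sum_congr rfl (fun n _ => this n), Finset.sum_comm]
    apply Finset.sum_congr rfl; intro m _
    rw [Finset.sum_comm]
    apply Finset.sum_congr rfl; intro m' _
    rw [Finset.mul_sum]
  have e2 : cM a φ X κ M = ∑ m ∈ T, ∑ m' ∈ T, a m * a m' * d m m' := by
    unfold cM
    have h1 : (∑ m ∈ T, a m * cf φ X κ m)^2 = ∑ m ∈ T, ∑ m' ∈ T, a m * a m' * (cf φ X κ m * cf φ X κ m') := by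
      rw [pow_two, Finset.sum_mul_sum]
      apply Finset.sum_congr rfl; intro m _
      apply Finset.sum_congr rfl; intro m' _
      ring
    have h2 : 1/2 * ∑ m ∈ T, (if IsSquare (κ * m) then 0 else a m ^ 2) = ∑ m ∈ T, ∑ m' ∈ T, a m * a m' * (if m = m' ∧ ¬ IsSquare (κ * m) then 1/2 else 0) := by
      rw [Finset.mul_sum]
      apply Finset.sum_congr rfl; intro m hm
      rw [Finset.sum_eq_single m]
      · by_cases h : IsSquare (κ * m)
        · rw [if_pos h, if_neg (fun h' => h'.2 h)]; ring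
        · rw [if_neg h, if_pos ⟨rfl, h⟩]; ring
      · intro m' _ hne
        rw [if_neg (fun h => hne h.1.symm), mul_zero]
      · intro h; exact absurd hm h
    rw [← hT, h1, h2, ← Finset.sum_add_distrib]
    apply Finset.sum_congr rfl; intro m _
    rw [← Finset.sum_add_distrib]
    apply Finset.sum_congr rfl; intro m' _
    simp only [hd]; ring
  have e3 : ∑ n ∈ Finset.range N, (U a φ (X + n * √(κ:ℝ)) M)^2 - N * cM a φ X κ M =
      ∑ m ∈ T, ∑ m' ∈ T, a m * a m' * (∑ n ∈ Finset.range N, c n m * c n m' - N * d m m') := by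
    rw [e1, e2, Finset.mul_sum, ← Finset.sum_sub_distrib]
    apply Finset.sum_congr rfl; intro m _
    rw [Finset.mul_sum, ← Finset.sum_sub_distrib]
    apply Finset.sum_congr rfl; intro m' _
    ring
  rw [e3]
  calc |∑ m ∈ T, ∑ m' ∈ T, a m * a m' * (∑ n ∈ Finset.range N, c n m * c n m' - N * d m m')|
      ≤ ∑ m ∈ T, ∑ m' ∈ T, |a m| * |a m'| * (4 * √(κ:ℝ) * M + 1)^3 := by
        refine (Finset.abs_sum_le_sum_abs _ _).trans (Finset.sum_le_sum (fun m hm => ?_))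
        refine (Finset.abs_sum_le_sum_abs _ _).trans (Finset.sum_le_sum (fun m' hm' => ?_))
        rw [abs_mul, abs_mul]
        apply mul_le_mul_of_nonneg_left _ (by positivity)
        exact pair_bd M (Finset.mem_Icc.mp hm).2 (Finset.mem_Icc.mp hm').2 N
    _ = _ := by
        rw [pow_two, Finset.sum_mul_sum, Finset.sum_mul]
        apply Finset.sum_congr rfl; intro m _
        rw [Finset.sum_mul]

end Pool.Agent.H425R3.MS
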