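import Mathlib
import Pool.Agent.H425R3.MS.A2
import Pool.Agent.H425R3.JL.F3

open Filter Topology
open Pool.Agent.H383.AP Pool.Agent.H383.Gen

namespace Pool.Agent.H425R3.MS

open Pool.Agent.H383 Pool.Agent.H425R3.JL

variable {a : ℕ → ℝ} {φ X : ℝ} {κ : ℕ}

lemma tail_bd {f g : ℕ → ℝ} {c : ℝ} {M : ℕ} (hc : 0 ≤ c) (hg : Summable g) (hg0 : ∀ m, 0 ≤ g m) (hf : Summable f) (f0 : f 0 = 0)
    (hfg : ∀ m, M^2 < m → |f m| ≤ c * g m) :
    |∑ m ∈ Finset.Icc 1 (M^2), f m - ∑' m, f m| ≤ c * ∑' m, g m := by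
  have e1 : ∑ m ∈ Finset.Icc 1 (M^2), f m = ∑ m ∈ Finset.range (M^2 + 1), f m := by
    rw [Finset.sum_range_succ', f0, add_zero, Finset.range_eq_Ico, Finset.sum_Ico_add' f 0 (M^2) 1]
    apply Finset.sum_congr _ (fun _ _ => rfl)
    ext n; simp only [Finset.mem_Icc, Finset.mem_Ico]; omega
  have e2 := hf.sum_add_tsum_nat_add (M^2 + 1)
  have hg' : Summable (fun m => g (m + (M^2 + 1))) := (summable_nat_add_iff (M^2+1)).mpr hg
  have hf' : Summable (fun m => f (m + (M^2 + 1))) := (summable_nat_add_iff (M^2+1)).mpr hf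
  have e3 : |∑' m, f (m + (M^2 + 1))| ≤ c * ∑' m, g (m + (M^2 + 1)) := by
    rw [← tsum_mul_left]
    rw [← Real.norm_eq_abs]
    apply tsum_of_norm_bounded (hg'.mul_left c).hasSum
    intro m
    rw [Real.norm_eq_abs]
    exact hfg _ (by omega)
  have e4 : ∑' m, g (m + (M^2 + 1)) ≤ ∑' m, g m := by
    have := hg.sum_add_tsum_nat_add (M^2 + 1)
    have h0 : 0 ≤ ∑ m ∈ Finset.range (M^2 + 1), g m := Finset.sum_nonneg (fun m _ => hg0 m)
    linarith
  have e5 : ∑ m ∈ Finset.Icc 1 (M^2), f m - ∑' m, f m = - ∑' m, f (m + (M^2 + 1)) := by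
    rw [e1]; linarith
  rw [e5, abs_neg]
  exact e3.trans (mul_le_mul_of_nonneg_left e4 hc)

open Classical in
lemma sq_summ (hκ : 0 < κ) : Summable (fun m : ℕ => if IsSquare (κ * m) then (√(m:ℝ)) ^ (-(13/10):ℝ) else 0) := by
  set S : Set ℕ := {m | IsSquare (κ * m)} with hS
  have h1 : (fun m : ℕ => if IsSquare (κ * m) then (√(m:ℝ)) ^ (-(13/10):ℝ) else 0) = S.indicator (fun m : ℕ => (√(m:ℝ)) ^ (-(13/10):ℝ)) := by
    funext m
    rw [Set.indicator_apply]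
    rfl
  rw [h1, ← summable_subtype_iff_indicator]
  have hk0 : (0:ℝ) < κ := by exact_mod_cast hκ
  have hsk : 0 < √(κ:ℝ) := Real.sqrt_pos.mpr hk0
  have hk : ∀ m ∈ S, ((Nat.sqrt (κ * m) : ℕ) : ℝ) = √(κ:ℝ) * √(m:ℝ) := by
    intro m hm
    obtain ⟨r, hr⟩ := hm
    rw [sqrt_mul', hr, Nat.sqrt_eq]
    push_cast
    exact (Real.sqrt_mul_self (Nat.cast_nonneg r)).symm
  have hinj : Function.Injective (fun m : S => Nat.sqrt (κ * (m:ℕ))) := by
    intro x y hxy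
    simp only at hxy
    have h2 : √(κ:ℝ) * √((x:ℕ):ℝ) = √(κ:ℝ) * √((y:ℕ):ℝ) := by
      rw [← hk x x.2, ← hk y y.2, hxy]
    have h3 := mul_left_cancel₀ hsk.ne' h2
    have h4 : ((x:ℕ):ℝ) = ((y:ℕ):ℝ) := by
      have e1 := Real.sq_sqrt (Nat.cast_nonneg (α := ℝ) (x:ℕ))
      have e2 := Real.sq_sqrt (Nat.cast_nonneg (α := ℝ) (y:ℕ))
      rw [← e1, ← e2, h3]
    exact Subtype.ext (by exact_mod_cast h4)
  have hsum : Summable (fun k : ℕ => (k:ℝ) ^ (-(13/10):ℝ)) := by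
    rw [Real.summable_nat_rpow]; norm_num
  have hs2 := (hsum.comp_injective hinj).mul_left (√(κ:ℝ) ^ (13/10:ℝ))
  refine hs2.congr (fun m => ?_)
  simp only [Function.comp_apply]
  rw [hk m m.2, Real.mul_rpow hsk.le (Real.sqrt_nonneg _), ← mul_assoc, ← Real.rpow_add hsk]
  norm_num

/-- the limit constant -/
noncomputable def cI (a : ℕ → ℝ) (φ X : ℝ) (κ : ℕ) : ℝ :=
  (∑' m, a m * cf φ X κ m)^2 + 1/2 * ∑' m, (open Classical in if IsSquare (κ * m) then 0 else a m ^ 2)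

lemma abs_cf_le (m : ℕ) : |cf φ X κ m| ≤ 1 := by
  classical
  unfold cf
  split_ifs
  · exact Real.abs_cos_le_one _
  · simp

lemma pow_split {M m : ℕ} (hM : 1 ≤ M) (hm : M^2 < m) : (√(m:ℝ)) ^ (-(9/50):ℝ) ≤ (M:ℝ) ^ (-(9/50):ℝ) := by
  apply Real.rpow_le_rpow_of_nonpos (by exact_mod_cast hM) _ (by norm_num)
  apply Real.le_sqrt_of_sq_le
  exact_mod_cast hm.le

theorem cM_rate (ha : Bd a) (ha0 : a 0 = 0) (hκ : 0 < κ) :
    ∃ C : ℝ, 0 < C ∧ ∀ M : ℕ, 1 ≤ M → |cM a φ X κ M - cI a φ X κ| ≤ C * (M:ℝ) ^ (-(9/50):ℝ) ∧ |cM a φ X κ M| ≤ C := by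
  classical
  obtain ⟨C, hC, hb⟩ := ha
  set f1 : ℕ → ℝ := fun m => a m * cf φ X κ m with hf1
  set f2 : ℕ → ℝ := fun m => if IsSquare (κ * m) then 0 else a m ^ 2 with hf2
  set g1 : ℕ → ℝ := fun m => if IsSquare (κ * m) then (√(m:ℝ)) ^ (-(13/10):ℝ) else 0 with hg1
  set g2 : ℕ → ℝ := fun m => (m:ℝ) ^ (-(139/100):ℝ) with hg2
  have hs1 : Summable g1 := sq_summ hκ
  have hs2 : Summable g2 := by rw [hg2, Real.summable_nat_rpow]; norm_num
  have hg10 : ∀ m, 0 ≤ g1 m := by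
    intro m; simp only [hg1]; split_ifs
    · positivity
    · exact le_rfl
  have hg20 : ∀ m, 0 ≤ g2 m := fun m => by simp only [hg2]; positivity
  -- pointwise, with the factor
  have p1 : ∀ m, 1 ≤ m → |f1 m| ≤ C * (√(m:ℝ)) ^ (-(9/50):ℝ) * g1 m := by
    intro m hm
    have hm0 : (0:ℝ) < m := by exact_mod_cast hm
    have hs : 0 < √(m:ℝ) := Real.sqrt_pos.mpr hm0
    simp only [hf1, hg1]
    by_cases h : IsSquare (κ * m)
    · rw [if_pos h, abs_mul, mul_assoc, ← Real.rpow_add hs]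
      have h1 := hb m hm
      have h2 := abs_cf_le (φ := φ) (X := X) (κ := κ) m
      have e : (-(9/50):ℝ) + -(13/10) = -(37/25) := by norm_num
      rw [e]
      calc |a m| * |cf φ X κ m| ≤ |a m| * 1 := by gcongr
        _ ≤ _ := by rw [mul_one]; exact h1
    · unfold cf
      rw [if_neg h, if_neg h, mul_zero, abs_zero, mul_zero]
  have p2 : ∀ m, 1 ≤ m → |f2 m| ≤ C^2 * (√(m:ℝ)) ^ (-(9/50):ℝ) * g2 m := by
    intro m hm
    have hm0 : (0:ℝ) < m := by exact_mod_cast hm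
    have hs : 0 < √(m:ℝ) := Real.sqrt_pos.mpr hm0
    simp only [hf2, hg2]
    have e0 : (m:ℝ) ^ (-(139/100):ℝ) = (√(m:ℝ)) ^ (-(278/100):ℝ) := by
      rw [Real.sqrt_eq_rpow, ← Real.rpow_mul hm0.le]; norm_num
    rw [e0, mul_assoc, ← Real.rpow_add hs]
    have e : (-(9/50):ℝ) + -(278/100) = -(37/25) + -(37/25) := by norm_num
    rw [e, Real.rpow_add hs]
    have h1 := hb m hm
    have h3 : a m ^ 2 ≤ C^2 * ((√(m:ℝ)) ^ (-(37/25):ℝ) * (√(m:ℝ)) ^ (-(37/25):ℝ)) := by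
      rw [← sq_abs]
      calc |a m|^2 ≤ (C * (√(m:ℝ)) ^ (-(37/25):ℝ))^2 := pow_le_pow_left₀ (abs_nonneg _) h1 2
        _ = _ := by ring
    by_cases h : IsSquare (κ * m)
    · rw [if_pos h, abs_zero]; positivity
    · rw [if_neg h, abs_of_nonneg (sq_nonneg _)]; exact h3
  have hone : ∀ m : ℕ, 1 ≤ m → (√(m:ℝ)) ^ (-(9/50):ℝ) ≤ 1 := by
    intro m hm
    apply Real.rpow_le_one_of_one_le_of_nonpos _ (by norm_num)
    rw [Real.one_le_sqrt]; exact_mod_cast hm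
  have f10 : f1 0 = 0 := by simp only [hf1, ha0, zero_mul]
  have f20 : f2 0 = 0 := by simp only [hf2, ha0]; split_ifs <;> norm_num
  have hf1s : Summable f1 := by
    apply Summable.of_norm_bounded (hs1.mul_left C)
    intro m
    rcases Nat.eq_zero_or_pos m with h | h
    · rw [h, f10, norm_zero]; exact mul_nonneg hC.le (hg10 0)
    · rw [Real.norm_eq_abs]
      refine (p1 m h).trans ?_
      apply mul_le_mul_of_nonneg_right _ (hg10 m)
      have := hone m h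
      nlinarith
  have hf2s : Summable f2 := by
    apply Summable.of_norm_bounded (hs2.mul_left (C^2))
    intro m
    rcases Nat.eq_zero_or_pos m with h | h
    · rw [h, f20, norm_zero]; exact mul_nonneg (by positivity) (hg20 0)
    · rw [Real.norm_eq_abs]
      refine (p2 m h).trans ?_
      apply mul_le_mul_of_nonneg_right _ (hg20 m)
      have := hone m h
      have hC2 : 0 < C^2 := by positivity
      nlinarith
  set Z1 := ∑' m, g1 m with hZ1
  set Z2 := ∑' m, g2 m with hZ2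
  have hZ10 : 0 ≤ Z1 := tsum_nonneg hg10
  have hZ20 : 0 ≤ Z2 := tsum_nonneg hg20
  set S := ∑' m, f1 m with hS
  set Q := ∑' m, f2 m with hQ
  refine ⟨C * Z1 * (2 * |S| + C * Z1) + C^2 * Z2 + (|S| + C * Z1)^2 + |Q| + 1, by positivity, fun M hM => ?_⟩
  have hM0 : (0:ℝ) < M := by exact_mod_cast hM
  have hMp : 0 < (M:ℝ) ^ (-(9/50):ℝ) := by positivity
  have hMp1 : (M:ℝ) ^ (-(9/50):ℝ) ≤ 1 := Real.rpow_le_one_of_one_le_of_nonpos (by exact_mod_cast hM) (by norm_num)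
  have t1 := tail_bd (f := f1) (g := g1) (c := C * (M:ℝ) ^ (-(9/50):ℝ)) (M := M) (by positivity) hs1 hg10 hf1s f10 (fun m hm => by
    refine (p1 m (by omega)).trans ?_
    apply mul_le_mul_of_nonneg_right _ (hg10 m)
    exact mul_le_mul_of_nonneg_left (pow_split hM hm) hC.le)
  have t2 := tail_bd (f := f2) (g := g2) (c := C^2 * (M:ℝ) ^ (-(9/50):ℝ)) (M := M) (by positivity) hs2 hg20 hf2s f20 (fun m hm => by
    refine (p2 m (by omega)).trans ?_
    apply mul_le_mul_of_nonneg_right _ (hg20 m)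
    exact mul_le_mul_of_nonneg_left (pow_split hM hm) (by positivity))
  set SM := ∑ m ∈ Finset.Icc 1 (M^2), f1 m with hSM
  set QM := ∑ m ∈ Finset.Icc 1 (M^2), f2 m with hQM
  rw [← hS, ← hZ1] at t1
  rw [← hQ, ← hZ2] at t2
  set μ := (M:ℝ) ^ (-(9/50):ℝ) with hμ
  have t1' : |SM - S| ≤ C * Z1 := by
    refine t1.trans ?_
    have : 0 ≤ C * Z1 := by positivity
    nlinarith
  have t2' : |QM - Q| ≤ C^2 * Z2 := by
    refine t2.trans ?_
    have : 0 ≤ C^2 * Z2 := by positivity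
    nlinarith
  have hSMb : |SM| ≤ |S| + C * Z1 := by
    have : |SM| ≤ |SM - S| + |S| := by
      calc |SM| = |(SM - S) + S| := by congr 1; ring
        _ ≤ _ := abs_add_le _ _
    linarith
  have hQMb : |QM| ≤ |Q| + C^2 * Z2 := by
    have : |QM| ≤ |QM - Q| + |Q| := by
      calc |QM| = |(QM - Q) + Q| := by congr 1; ring
        _ ≤ _ := abs_add_le _ _
    linarith
  have e1 : cM a φ X κ M = SM^2 + 1/2 * QM := rfl
  have e2 : cI a φ X κ = S^2 + 1/2 * Q := rfl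
  have hdiff : |cM a φ X κ M - cI a φ X κ| ≤ (C * Z1 * (2 * |S| + C * Z1) + C^2 * Z2) * μ := by
    rw [e1, e2]
    have : SM^2 + 1/2 * QM - (S^2 + 1/2 * Q) = (SM - S) * (SM + S) + 1/2 * (QM - Q) := by ring
    rw [this]
    refine (abs_add_le _ _).trans ?_
    rw [abs_mul, abs_mul, abs_of_pos (by norm_num : (0:ℝ) < 1/2)]
    have h1 : |SM + S| ≤ 2 * |S| + C * Z1 := (abs_add_le _ _).trans (by linarith)
    have h2 : |SM - S| * |SM + S| ≤ (C * μ * Z1) * (2 * |S| + C * Z1) := mul_le_mul t1 h1 (abs_nonneg _) (by positivity)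
    have h3 : 0 ≤ C^2 * Z2 * μ := by positivity
    nlinarith
  constructor
  · refine hdiff.trans ?_
    apply mul_le_mul_of_nonneg_right _ hMp.le
    have : 0 ≤ (|S| + C * Z1)^2 + |Q| := by positivity
    linarith
  · rw [e1]
    have h1 : |SM^2 + 1/2 * QM| ≤ |SM|^2 + 1/2 * |QM| := by
      refine (abs_add_le _ _).trans ?_
      rw [abs_mul, abs_of_pos (by norm_num : (0:ℝ) < 1/2), abs_pow]
    have h2 : |SM|^2 ≤ (|S| + C * Z1)^2 := pow_le_pow_left₀ (abs_nonneg _) hSMb 2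
    have h3 : 0 ≤ C * Z1 * (2 * |S| + C * Z1) := by positivity
    have h4 : 0 ≤ C^2 * Z2 := by positivity
    have h5 := abs_nonneg Q
    linarith

end Pool.Agent.H425R3.MS
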