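import Mathlib
import Pool.Agent.H425R3.MS.A3

open Filter Topology
open Pool.Agent.H383.AP Pool.Agent.H383.Gen

namespace Pool.Agent.H425R3.MS

open Pool.Agent.H383 Pool.Agent.H425R3.JL

/-- mean square with a power saving -/
theorem ms_gen {Ex : ℝ → ℝ} {af : ℕ → ℝ} {φ : ℝ} {κ : ℕ → ℕ} {X : ℕ → ℝ → ℝ} (hD : Data Ex af φ κ X)
    (a : ℕ) (b c : ℝ) (ha : 0 < a) (hP : ∀ n : ℕ, 0 < (a:ℝ) * (n:ℝ)^2 + b * n + c) :
    ∃ C : ℝ, 0 < C ∧ ∃ N0 : ℕ, ∀ N : ℕ, N0 ≤ N →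
      |∑ n ∈ Finset.range N, (Ex ((a:ℝ) * (n:ℝ)^2 + b * n + c))^2 - N * cI af φ (X a b) (κ a)| ≤ C * (N:ℝ) ^ (1 - 1/80000:ℝ) := by
  obtain ⟨C1, hC1, N1, h1⟩ := hD.apq a b c ha hP
  obtain ⟨Ct, hCt, hT⟩ := Tl_pow
  obtain ⟨Cs, hCs, hsum⟩ := sum_a_le hD.bd
  obtain ⟨Cc, hCc, hc⟩ := cM_rate (φ := φ) (X := X a b) hD.bd hD.zero (hD.pos a ha)
  set k : ℕ := κ a with hk
  set K : ℝ := Cs^2 * (4 * √(k:ℝ) + 1)^3 with hK
  have hK0 : 0 < K := by positivity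
  refine ⟨2 * (C1 * (2 * Ct + 1)) + (Cc + K) + K + 2 * Cc, by positivity, max N1 1, ?_⟩
  intro N hN
  have hN1 : N1 ≤ N := le_trans (le_max_left _ _) hN
  have hNn : 1 ≤ N := le_trans (le_max_right _ _) hN
  have hNr : (1:ℝ) ≤ N := by exact_mod_cast hNn
  have hN0 : (0:ℝ) < N := by linarith
  set Q : ℝ := (N:ℝ) ^ (1/200:ℝ) with hQ
  have hQ1 : 1 ≤ Q := Real.one_le_rpow hNr (by norm_num)
  have hQ0 : 0 < Q := by linarith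
  set M : ℕ := ⌊Q⌋₊ with hM
  have hM1 : 1 ≤ M := by rw [hM]; apply Nat.le_floor; simpa using hQ1
  have hMr : (1:ℝ) ≤ M := by exact_mod_cast hM1
  have hM0 : (0:ℝ) < M := by linarith
  have hMle : (M:ℝ) ≤ Q := Nat.floor_le hQ0.le
  have hMge : Q / 2 ≤ M := by
    have := Nat.lt_floor_add_one Q
    rw [← hM] at this
    linarith
  have base : ∀ x y : ℝ, x ≤ y → (N:ℝ) ^ x ≤ (N:ℝ) ^ y := fun x y h => Real.rpow_le_rpow_of_exponent_le hNr h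
  have hMneg : ∀ y : ℝ, 0 ≤ y → y ≤ 1 → (M:ℝ) ^ (-y) ≤ 2 * (N:ℝ) ^ (-(y/200)) := by
    intro y hy hy1
    calc (M:ℝ) ^ (-y) ≤ (Q/2) ^ (-y) := Real.rpow_le_rpow_of_nonpos (by positivity) hMge (by linarith)
      _ = Q ^ (-y) * (2:ℝ) ^ y := by
          rw [Real.div_rpow hQ0.le (by norm_num), Real.rpow_neg (by norm_num : (0:ℝ) ≤ 2), div_inv_eq_mul]
      _ ≤ Q ^ (-y) * 2 := by
          apply mul_le_mul_of_nonneg_left _ (by positivity)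
          calc (2:ℝ) ^ y ≤ 2 ^ (1:ℝ) := Real.rpow_le_rpow_of_exponent_le (by norm_num) hy1
            _ = 2 := Real.rpow_one _
      _ = 2 * (N:ℝ) ^ (-(y/200)) := by
          rw [hQ, ← Real.rpow_mul hN0.le, mul_comm]; congr 2; ring
  set e : ℕ → ℝ := fun n => Ex ((a:ℝ) * (n:ℝ)^2 + b * n + c) with he
  set u : ℕ → ℝ := fun n => U af φ (X a b + n * √(k:ℝ)) M with hu
  have hA0 := h1 N hN1 M hM1 hMle
  have hA : ∑ n ∈ Finset.range N, (e n - u n)^2 ≤ C1 * (2 * Ct + 1) * (N:ℝ) ^ (1 - 1/40000:ℝ) := by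
    refine hA0.trans ?_
    have i1 : Gauss.Tl M ≤ Ct * (2 * (N:ℝ) ^ (-(1/40000):ℝ)) := by
      refine (hT M hM1).trans ?_
      apply mul_le_mul_of_nonneg_left _ hCt.le
      have := hMneg (1/200) (by norm_num) (by norm_num)
      norm_num at this ⊢
      exact this
    have i2 : (N:ℝ) ^ (-(1/100):ℝ) ≤ (N:ℝ) ^ (-(1/40000):ℝ) := base _ _ (by norm_num)
    have i3 : (N:ℝ) ^ (1 - 1/40000:ℝ) = (N:ℝ) ^ (-(1/40000):ℝ) * N := by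
      rw [sub_eq_add_neg, add_comm, Real.rpow_add hN0, Real.rpow_one]
    rw [i3]
    calc C1 * (Gauss.Tl M + (N:ℝ) ^ (-(1/100):ℝ)) * N ≤ C1 * (Ct * (2 * (N:ℝ) ^ (-(1/40000):ℝ)) + (N:ℝ) ^ (-(1/40000):ℝ)) * N := by gcongr
      _ = _ := by ring
  have hUm := U_sq_mean af φ (X a b) k M N
  have hUe : (∑ m ∈ Finset.Icc 1 (M^2), |af m|)^2 * (4 * √(k:ℝ) * M + 1)^3 ≤ K * (N:ℝ) ^ (7/200:ℝ) := by
    have j1 : (∑ m ∈ Finset.Icc 1 (M^2), |af m|)^2 ≤ (Cs * (M:ℝ)^2)^2 :=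
      pow_le_pow_left₀ (Finset.sum_nonneg (fun _ _ => abs_nonneg _)) (hsum M) 2
    have j2 : (4 * √(k:ℝ) * M + 1)^3 ≤ ((4 * √(k:ℝ) + 1) * M)^3 := by
      apply pow_le_pow_left₀ (by positivity)
      nlinarith
    have j3 : (M:ℝ)^7 ≤ (N:ℝ) ^ (7/200:ℝ) := by
      calc (M:ℝ)^7 ≤ Q^7 := pow_le_pow_left₀ hM0.le hMle 7
        _ = _ := by rw [hQ, ← Real.rpow_natCast, ← Real.rpow_mul hN0.le]; norm_num
    calc _ ≤ (Cs * (M:ℝ)^2)^2 * ((4 * √(k:ℝ) + 1) * M)^3 := mul_le_mul j1 j2 (by positivity) (by positivity)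
      _ = K * (M:ℝ)^7 := by rw [hK]; ring
      _ ≤ _ := mul_le_mul_of_nonneg_left j3 hK0.le
  obtain ⟨hc1, hc2⟩ := hc M hM1
  have hUm' : |∑ n ∈ Finset.range N, (u n)^2 - N * cM af φ (X a b) k M| ≤ K * (N:ℝ) ^ (7/200:ℝ) := hUm.trans hUe
  have hN7 : (N:ℝ) ^ (7/200:ℝ) ≤ N := by
    calc (N:ℝ) ^ (7/200:ℝ) ≤ (N:ℝ) ^ (1:ℝ) := base _ _ (by norm_num)
      _ = N := Real.rpow_one _
  have hB : ∑ n ∈ Finset.range N, (u n)^2 ≤ (Cc + K) * N := by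
    have g1 := (abs_le.mp hUm').2
    have g2 := le_abs_self (cM af φ (X a b) k M)
    have g3 : (N:ℝ) * cM af φ (X a b) k M ≤ N * Cc := mul_le_mul_of_nonneg_left (g2.trans hc2) hN0.le
    have g4 : K * (N:ℝ) ^ (7/200:ℝ) ≤ K * N := mul_le_mul_of_nonneg_left hN7 hK0.le
    linarith
  set t : ℝ := (N:ℝ) ^ (1/80000:ℝ) with ht
  have ht1 : 1 ≤ t := Real.one_le_rpow hNr (by norm_num)
  have ht0 : 0 < t := by linarith
  have hdiff : |∑ n ∈ Finset.range N, (e n)^2 - ∑ n ∈ Finset.range N, (u n)^2| ≤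
      2 * t * ∑ n ∈ Finset.range N, (e n - u n)^2 + t⁻¹ * ∑ n ∈ Finset.range N, (u n)^2 := by
    rw [← Finset.sum_sub_distrib, Finset.mul_sum, Finset.mul_sum, ← Finset.sum_add_distrib]
    refine (Finset.abs_sum_le_sum_abs _ _).trans (Finset.sum_le_sum (fun n _ => ?_))
    have e1 : (e n)^2 - (u n)^2 = (e n - u n)^2 + 2 * (u n * (e n - u n)) := by ring
    rw [e1]
    refine (abs_add_le _ _).trans ?_
    rw [abs_of_nonneg (sq_nonneg (e n - u n)), abs_mul, abs_two, abs_mul]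
    have h2 : 2 * (|u n| * |e n - u n|) ≤ t * (e n - u n)^2 + t⁻¹ * (u n)^2 := by
      have h3 : 0 ≤ t⁻¹ * (t * |e n - u n| - |u n|)^2 := by positivity
      have h4 : t⁻¹ * (t * |e n - u n| - |u n|)^2 = t * |e n - u n|^2 - 2 * (|u n| * |e n - u n|) + t⁻¹ * |u n|^2 := by
        field_simp; ring
      rw [h4, sq_abs, sq_abs] at h3
      linarith
    have h5 : (e n - u n)^2 ≤ t * (e n - u n)^2 := by nlinarith [sq_nonneg (e n - u n)]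
    linarith
  have ht2 : t * (N:ℝ) ^ (1 - 1/40000:ℝ) = (N:ℝ) ^ (1 - 1/80000:ℝ) := by
    rw [ht, ← Real.rpow_add hN0]; norm_num
  have ht3 : t⁻¹ * (N:ℝ) = (N:ℝ) ^ (1 - 1/80000:ℝ) := by
    rw [ht, ← Real.rpow_neg hN0.le, sub_eq_add_neg, add_comm, Real.rpow_add hN0, Real.rpow_one]
  have hP1 : 2 * t * ∑ n ∈ Finset.range N, (e n - u n)^2 ≤ 2 * (C1 * (2 * Ct + 1)) * (N:ℝ) ^ (1 - 1/80000:ℝ) := by
    rw [← ht2]
    calc 2 * t * ∑ n ∈ Finset.range N, (e n - u n)^2 ≤ 2 * t * (C1 * (2 * Ct + 1) * (N:ℝ) ^ (1 - 1/40000:ℝ)) := by gcongr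
      _ = _ := by ring
  have hP2 : t⁻¹ * ∑ n ∈ Finset.range N, (u n)^2 ≤ (Cc + K) * (N:ℝ) ^ (1 - 1/80000:ℝ) := by
    rw [← ht3]
    calc t⁻¹ * ∑ n ∈ Finset.range N, (u n)^2 ≤ t⁻¹ * ((Cc + K) * N) := by gcongr
      _ = _ := by ring
  have hP3 : K * (N:ℝ) ^ (7/200:ℝ) ≤ K * (N:ℝ) ^ (1 - 1/80000:ℝ) := mul_le_mul_of_nonneg_left (base _ _ (by norm_num)) hK0.le
  have hP4 : |(N:ℝ) * cM af φ (X a b) k M - N * cI af φ (X a b) k| ≤ 2 * Cc * (N:ℝ) ^ (1 - 1/80000:ℝ) := by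
    rw [← mul_sub, abs_mul, abs_of_pos hN0]
    have q1 := hMneg (9/50) (by norm_num) (by norm_num)
    have q2 : (N:ℝ) ^ (-(9/50/200):ℝ) ≤ (N:ℝ) ^ (-(1/80000):ℝ) := base _ _ (by norm_num)
    have q3 : (N:ℝ) ^ (1 - 1/80000:ℝ) = N * (N:ℝ) ^ (-(1/80000):ℝ) := by
      rw [sub_eq_add_neg, Real.rpow_add hN0, Real.rpow_one]
    rw [q3]
    calc (N:ℝ) * |cM af φ (X a b) k M - cI af φ (X a b) k| ≤ N * (Cc * (M:ℝ) ^ (-(9/50):ℝ)) := by gcongr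
      _ ≤ N * (Cc * (2 * (N:ℝ) ^ (-(1/80000):ℝ))) := by
          gcongr
          exact q1.trans (mul_le_mul_of_nonneg_left q2 (by norm_num))
      _ = _ := by ring
  have hfin : |∑ n ∈ Finset.range N, (e n)^2 - N * cI af φ (X a b) k| ≤
      |∑ n ∈ Finset.range N, (e n)^2 - ∑ n ∈ Finset.range N, (u n)^2| + |∑ n ∈ Finset.range N, (u n)^2 - N * cM af φ (X a b) k M|
        + |(N:ℝ) * cM af φ (X a b) k M - N * cI af φ (X a b) k| := by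
    have : ∑ n ∈ Finset.range N, (e n)^2 - N * cI af φ (X a b) k =
        (∑ n ∈ Finset.range N, (e n)^2 - ∑ n ∈ Finset.range N, (u n)^2) + (∑ n ∈ Finset.range N, (u n)^2 - N * cM af φ (X a b) k M)
        + ((N:ℝ) * cM af φ (X a b) k M - N * cI af φ (X a b) k) := by ring
    rw [this]
    exact (abs_add_le _ _).trans (add_le_add (abs_add_le _ _) le_rfl)
  refine hfin.trans ?_
  have e5 : (2 * (C1 * (2 * Ct + 1)) + (Cc + K) + K + 2 * Cc) * (N:ℝ) ^ (1 - 1/80000:ℝ) =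
      2 * (C1 * (2 * Ct + 1)) * (N:ℝ) ^ (1 - 1/80000:ℝ) + (Cc + K) * (N:ℝ) ^ (1 - 1/80000:ℝ) + K * (N:ℝ) ^ (1 - 1/80000:ℝ)
        + 2 * Cc * (N:ℝ) ^ (1 - 1/80000:ℝ) := by ring
  rw [e5]
  linarith

end Pool.Agent.H425R3.MS
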