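import Mathlib
import Pool.Agent.H425R3.MS.A4

open Filter Topology
open Pool.Agent.H383.AP Pool.Agent.H383.Gen

namespace Pool.Agent.H425R3.MS

open Pool.Agent.H383 Pool.Agent.H425R3.JL

lemma abel_id (e : ℕ → ℝ) (N : ℕ) : ∑ n ∈ Finset.range N, (n:ℝ) * e n =
    ∑ j ∈ Finset.range N, (∑ n ∈ Finset.range N, e n - ∑ n ∈ Finset.range (j+1), e n) := by
  induction N with
  | zero => simp
  | succ N ih =>
      rw [Finset.sum_range_succ, ih]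
      rw [Finset.sum_range_succ (fun j => ∑ n ∈ Finset.range (N+1), e n - ∑ n ∈ Finset.range (j+1), e n), sub_self, add_zero]
      simp only [Finset.sum_sub_distrib, Finset.sum_const, Finset.card_range, nsmul_eq_mul]
      rw [Finset.sum_range_succ e N]
      ring

lemma abel_ms {e : ℕ → ℝ} {c δ C : ℝ} (hδ : 0 < δ) (hδ1 : δ ≤ 1) (hC : 0 < C) {N0 : ℕ}
    (h : ∀ N : ℕ, N0 ≤ N → |∑ n ∈ Finset.range N, e n - N * c| ≤ C * (N:ℝ) ^ (1 - δ)) :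
    ∃ C' : ℝ, 0 < C' ∧ ∀ N : ℕ, N0 + 1 ≤ N → |∑ n ∈ Finset.range N, (n:ℝ) * e n - c / 2 * (N:ℝ)^2| ≤ C' * (N:ℝ) ^ (2 - δ) := by
  set r : ℕ → ℝ := fun N => ∑ n ∈ Finset.range N, e n - N * c with hr
  set B : ℝ := ∑ m ∈ Finset.range N0, |r m| with hB
  have hB0 : 0 ≤ B := Finset.sum_nonneg (fun _ _ => abs_nonneg _)
  refine ⟨2 * (C + B) + |c|, by positivity, fun N hN => ?_⟩
  have hNr : (1:ℝ) ≤ N := by exact_mod_cast (by omega : 1 ≤ N)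
  have hN0 : (0:ℝ) < N := by linarith
  have hNδ : 1 ≤ (N:ℝ) ^ (1 - δ) := Real.one_le_rpow hNr (by linarith)
  have hrb : ∀ m : ℕ, m ≤ N → |r m| ≤ (C + B) * (N:ℝ) ^ (1 - δ) := by
    intro m hm
    rcases lt_or_ge m N0 with hlt | hge
    · have h1 : |r m| ≤ B := Finset.single_le_sum (f := fun m => |r m|) (fun _ _ => abs_nonneg _) (Finset.mem_range.mpr hlt)
      calc |r m| ≤ B := h1
        _ ≤ B * (N:ℝ) ^ (1 - δ) := by nlinarith
        _ ≤ _ := by apply mul_le_mul_of_nonneg_right _ (by positivity); linarith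
    · calc |r m| ≤ C * (m:ℝ) ^ (1 - δ) := h m hge
        _ ≤ C * (N:ℝ) ^ (1 - δ) := by
            apply mul_le_mul_of_nonneg_left _ hC.le
            exact Real.rpow_le_rpow (Nat.cast_nonneg m) (by exact_mod_cast hm) (by linarith)
        _ ≤ _ := by apply mul_le_mul_of_nonneg_right _ (by positivity); linarith
  have hid : ∑ n ∈ Finset.range N, (n:ℝ) * e n - c / 2 * (N:ℝ)^2 = ∑ j ∈ Finset.range N, (r N - r (j+1)) - c / 2 * N := by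
    rw [abel_id]
    have h1 : ∀ j ∈ Finset.range N, (∑ n ∈ Finset.range N, e n - ∑ n ∈ Finset.range (j+1), e n) =
        (r N - r (j+1)) + (c * N - c * (j + 1)) := by
      intro j _
      simp only [hr]; push_cast; ring
    rw [Finset.sum_congr rfl h1, Finset.sum_add_distrib]
    have h2 : ∑ j ∈ Finset.range N, (c * (N:ℝ) - c * ((j:ℝ) + 1)) = c / 2 * (N:ℝ)^2 - c / 2 * N := by
      have h3 : ∀ K : ℕ, ∑ j ∈ Finset.range K, ((j:ℝ) + 1) = (K:ℝ) * (K + 1) / 2 := by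
        intro K
        induction K with
        | zero => simp
        | succ K ih => rw [Finset.sum_range_succ, ih]; push_cast; ring
      rw [Finset.sum_sub_distrib, ← Finset.mul_sum, ← Finset.mul_sum, h3, Finset.sum_const, Finset.card_range, nsmul_eq_mul]
      ring
    rw [h2]; ring
  rw [hid]
  have e2 : (N:ℝ) ^ (2 - δ) = N * (N:ℝ) ^ (1 - δ) := by
    rw [show (2 - δ) = 1 + (1 - δ) by ring, Real.rpow_add hN0, Real.rpow_one]
  have hsum : |∑ j ∈ Finset.range N, (r N - r (j+1))| ≤ N * (2 * ((C + B) * (N:ℝ) ^ (1 - δ))) := by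
    refine (Finset.abs_sum_le_sum_abs _ _).trans ?_
    calc ∑ j ∈ Finset.range N, |r N - r (j+1)| ≤ ∑ j ∈ Finset.range N, 2 * ((C + B) * (N:ℝ) ^ (1 - δ)) := by
          apply Finset.sum_le_sum
          intro j hj
          have h1 := hrb N le_rfl
          have h2 := hrb (j+1) (by have := Finset.mem_range.mp hj; omega)
          calc |r N - r (j+1)| ≤ |r N| + |r (j+1)| := abs_sub _ _
            _ ≤ _ := by linarith
      _ = _ := by rw [Finset.sum_const, Finset.card_range, nsmul_eq_mul]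
  have hlin : |c / 2 * (N:ℝ)| ≤ |c| * (N * (N:ℝ) ^ (1 - δ)) := by
    rw [abs_mul, abs_div, abs_two, abs_of_pos hN0]
    have : |c| / 2 * (N:ℝ) ≤ |c| * N := by nlinarith [abs_nonneg c]
    refine this.trans (mul_le_mul_of_nonneg_left ?_ (abs_nonneg c))
    nlinarith
  calc |∑ j ∈ Finset.range N, (r N - r (j+1)) - c / 2 * N| ≤ |∑ j ∈ Finset.range N, (r N - r (j+1))| + |c / 2 * (N:ℝ)| := abs_sub _ _
    _ ≤ N * (2 * ((C + B) * (N:ℝ) ^ (1 - δ))) + |c| * (N * (N:ℝ) ^ (1 - δ)) := add_le_add hsum hlin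
    _ = _ := by rw [e2]; ring

/-- mean square of the error term itself -/
theorem ms_full {Ex : ℝ → ℝ} {af : ℕ → ℝ} {φ : ℝ} {κ : ℕ → ℕ} {X : ℕ → ℝ → ℝ} (hD : Data Ex af φ κ X)
    (a : ℕ) (b c : ℝ) (ha : 0 < a) (hP : ∀ n : ℕ, 0 < (a:ℝ) * (n:ℝ)^2 + b * n + c) :
    ∃ δ : ℝ, 0 < δ ∧ ∃ (C : ℝ) (N0 : ℕ), ∀ N : ℕ, N0 ≤ N →
      |∑ n ∈ Finset.range N, (Ex ((a:ℝ) * (n:ℝ)^2 + b * n + c))^2 * √((a:ℝ) * (n:ℝ)^2 + b * n + c)
        - √(a:ℝ) / 2 * cI af φ (X a b) (κ a) * (N:ℝ)^2| ≤ C * (N:ℝ) ^ (2 - δ) := by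
  obtain ⟨C, hC, N0, h⟩ := ms_gen hD a b c ha hP
  set L := cI af φ (X a b) (κ a) with hL
  set e : ℕ → ℝ := fun n => (Ex ((a:ℝ) * (n:ℝ)^2 + b * n + c))^2 with he
  have he0 : ∀ n, 0 ≤ e n := fun n => sq_nonneg _
  obtain ⟨C', hC', h'⟩ := abel_ms (δ := 1/80000) (by norm_num) (by norm_num) hC h
  have ha' : (0:ℝ) < a := by exact_mod_cast ha
  have hsa : 0 < √(a:ℝ) := Real.sqrt_pos.mpr ha'
  obtain ⟨C₁, hC₁⟩ := Pool.Agent.H383.Div.sqrt_quad ha' (fun n => (hP n).le)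
  set D : ℝ := |b / (2 * √(a:ℝ))| + |C₁| with hDd
  have hD0 : 0 ≤ D := by positivity
  have hsq : ∀ n : ℕ, |√((a:ℝ) * (n:ℝ)^2 + b * n + c) - √(a:ℝ) * n| ≤ D := by
    intro n
    have h1 := hC₁ n
    have hn : (1:ℝ) ≤ n + 1 := by have := Nat.cast_nonneg (α := ℝ) n; linarith
    have h2 : C₁ / ((n:ℝ) + 1) ≤ |C₁| := by
      rw [div_le_iff₀ (by linarith)]
      nlinarith [abs_nonneg C₁, le_abs_self C₁]
    have e1 : √((a:ℝ) * (n:ℝ)^2 + b * n + c) - √(a:ℝ) * n = (√((a:ℝ) * (n:ℝ)^2 + b * n + c) - (b / (2 * √(a:ℝ)) + n * √(a:ℝ))) + b / (2 * √(a:ℝ)) := by ring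
    rw [e1]
    refine (abs_add_le _ _).trans ?_
    rw [hDd]; linarith
  refine ⟨1/80000, by norm_num, √(a:ℝ) * C' + D * (|L| + C), N0 + 1, fun N hN => ?_⟩
  have hNr : (1:ℝ) ≤ N := by exact_mod_cast (by omega : 1 ≤ N)
  have hN0 : (0:ℝ) < N := by linarith
  have h1 := h N (by omega)
  have h2 := h' N hN
  have hS : ∑ n ∈ Finset.range N, e n ≤ (|L| + C) * N := by
    have h3 := (abs_le.mp h1).2
    have h4 : (N:ℝ) ^ (1 - 1/80000:ℝ) ≤ N := by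
      calc (N:ℝ) ^ (1 - 1/80000:ℝ) ≤ (N:ℝ) ^ (1:ℝ) := Real.rpow_le_rpow_of_exponent_le hNr (by norm_num)
        _ = N := Real.rpow_one _
    have h5 : C * (N:ℝ) ^ (1 - 1/80000:ℝ) ≤ C * N := mul_le_mul_of_nonneg_left h4 hC.le
    have h6 : (N:ℝ) * L ≤ N * |L| := mul_le_mul_of_nonneg_left (le_abs_self L) hN0.le
    linarith
  have hdiff : |∑ n ∈ Finset.range N, e n * √((a:ℝ) * (n:ℝ)^2 + b * n + c) - √(a:ℝ) * ∑ n ∈ Finset.range N, (n:ℝ) * e n| ≤ D * ((|L| + C) * N) := by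
    rw [Finset.mul_sum, ← Finset.sum_sub_distrib]
    refine (Finset.abs_sum_le_sum_abs _ _).trans ?_
    calc ∑ n ∈ Finset.range N, |e n * √((a:ℝ) * (n:ℝ)^2 + b * n + c) - √(a:ℝ) * ((n:ℝ) * e n)| ≤ ∑ n ∈ Finset.range N, D * e n := by
          apply Finset.sum_le_sum
          intro n _
          have e1 : e n * √((a:ℝ) * (n:ℝ)^2 + b * n + c) - √(a:ℝ) * ((n:ℝ) * e n) = e n * (√((a:ℝ) * (n:ℝ)^2 + b * n + c) - √(a:ℝ) * n) := by ring
          rw [e1, abs_mul, abs_of_nonneg (he0 n), mul_comm D]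
          exact mul_le_mul_of_nonneg_left (hsq n) (he0 n)
      _ = D * ∑ n ∈ Finset.range N, e n := by rw [Finset.mul_sum]
      _ ≤ _ := mul_le_mul_of_nonneg_left hS hD0
  have hN2 : (N:ℝ) ≤ (N:ℝ) ^ (2 - 1/80000:ℝ) := by
    calc (N:ℝ) = (N:ℝ) ^ (1:ℝ) := (Real.rpow_one _).symm
      _ ≤ _ := Real.rpow_le_rpow_of_exponent_le hNr (by norm_num)
  have hfin : |∑ n ∈ Finset.range N, e n * √((a:ℝ) * (n:ℝ)^2 + b * n + c) - √(a:ℝ) / 2 * L * (N:ℝ)^2| ≤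
      D * ((|L| + C) * N) + √(a:ℝ) * (C' * (N:ℝ) ^ (2 - 1/80000:ℝ)) := by
    have e1 : ∑ n ∈ Finset.range N, e n * √((a:ℝ) * (n:ℝ)^2 + b * n + c) - √(a:ℝ) / 2 * L * (N:ℝ)^2 =
        (∑ n ∈ Finset.range N, e n * √((a:ℝ) * (n:ℝ)^2 + b * n + c) - √(a:ℝ) * ∑ n ∈ Finset.range N, (n:ℝ) * e n)
        + √(a:ℝ) * (∑ n ∈ Finset.range N, (n:ℝ) * e n - L / 2 * (N:ℝ)^2) := by ring
    rw [e1]
    refine (abs_add_le _ _).trans (add_le_add hdiff ?_)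
    rw [abs_mul, abs_of_pos hsa]
    exact mul_le_mul_of_nonneg_left h2 hsa.le
  refine hfin.trans ?_
  have h7 : 0 ≤ D * (|L| + C) := by positivity
  have h8 : D * (|L| + C) * N ≤ D * (|L| + C) * (N:ℝ) ^ (2 - 1/80000:ℝ) := mul_le_mul_of_nonneg_left hN2 h7
  calc D * ((|L| + C) * N) + √(a:ℝ) * (C' * (N:ℝ) ^ (2 - 1/80000:ℝ)) = D * (|L| + C) * N + √(a:ℝ) * C' * (N:ℝ) ^ (2 - 1/80000:ℝ) := by ring
    _ ≤ D * (|L| + C) * (N:ℝ) ^ (2 - 1/80000:ℝ) + √(a:ℝ) * C' * (N:ℝ) ^ (2 - 1/80000:ℝ) := by linarith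
    _ = _ := by ring

end Pool.Agent.H425R3.MS
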