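import Mathlib
import Pool.Agent.H425R3.MS.A5

open Filter Topology
open Pool.Agent.H383.AP Pool.Agent.H383.Gen

namespace Pool.Agent.H425R3.MS

open Pool.Agent.H383 Pool.Agent.H425R3.JL

open Pool.Agent.H383.Gauss Pool.Agent.H383.Circ in
open Classical in
theorem circ_ms (a : ℕ) (b c : ℝ) (ha : 0 < a) (hP : ∀ n : ℕ, 0 < (a:ℝ) * (n:ℝ)^2 + b * n + c) :
    ∃ δ : ℝ, 0 < δ ∧ ∃ (C : ℝ) (N0 : ℕ), ∀ N : ℕ, N0 ≤ N →
      |∑ n ∈ Finset.range N, ((Nat.card {p : ℤ × ℤ // (p.1 : ℝ) ^ 2 + (p.2 : ℝ) ^ 2 ≤ (a:ℝ) * (n:ℝ)^2 + b * n + c} : ℝ)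
          - Real.pi * ((a:ℝ) * (n:ℝ)^2 + b * n + c)) ^ 2
        - √(a:ℝ) / (2 * Real.pi ^ 2) * ((∑' m : ℕ, if IsSquare (a * m) then
              (Nat.card {p : ℤ × ℤ // p.1 ^ 2 + p.2 ^ 2 = (m : ℤ)} : ℝ) * (m:ℝ) ^ (-(3/4):ℝ) * Real.cos (Real.pi * b * √((m:ℝ) / a) - 3 * Real.pi / 4) else 0)^2
            + 1/2 * ∑' m : ℕ, if IsSquare (a * m) then 0 else
              (Nat.card {p : ℤ × ℤ // p.1 ^ 2 + p.2 ^ 2 = (m : ℤ)} : ℝ)^2 * (m:ℝ) ^ (-(3/2):ℝ)) * (N:ℝ)^2| ≤ C * (N:ℝ) ^ (2 - δ) := by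
  obtain ⟨δ, hδ, C, N0, h⟩ := ms_full circ_data a b c ha hP
  refine ⟨δ, hδ, C, N0, fun N hN => ?_⟩
  refine le_trans (le_of_eq ?_) (h N hN)
  have ha' : (0:ℝ) < a := by exact_mod_cast ha
  have hpi := Real.pi_pos
  have e3 : ∀ m : ℕ, ag m = (Nat.card {p : ℤ × ℤ // p.1 ^ 2 + p.2 ^ 2 = (m : ℤ)} : ℝ) / Real.pi * (m : ℝ) ^ (-(3 / 4) : ℝ) := by
    intro m
    rcases Nat.eq_zero_or_pos m with rfl | hm
    · rw [ag_zero]; simp
    · have hm0 : (0:ℝ) < m := by exact_mod_cast hm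
      unfold ag
      rw [rA_card, Real.sqrt_eq_rpow, ← Real.rpow_mul hm0.le]; norm_num
  have c1 : ∑' m, ag m * cf (3 * Real.pi/4) (b / (2 * √(a:ℝ))) a m = 1 / Real.pi * (∑' m : ℕ, if IsSquare (a * m) then
              (Nat.card {p : ℤ × ℤ // p.1 ^ 2 + p.2 ^ 2 = (m : ℤ)} : ℝ) * (m:ℝ) ^ (-(3/4):ℝ) * Real.cos (Real.pi * b * √((m:ℝ) / a) - 3 * Real.pi / 4) else 0) := by
    rw [← tsum_mul_left]
    congr 1
    funext m
    unfold cf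
    have e2 : 2 * Real.pi * (b / (2 * √(a:ℝ)) * √(m:ℝ)) - 3 * Real.pi/4 = Real.pi * b * √((m:ℝ) / a) - 3 * Real.pi/4 := by
      rw [Real.sqrt_div (Nat.cast_nonneg m)]; field_simp
    rw [e2, e3]
    split_ifs
    · ring
    · simp
  have c2 : ∑' m, (if IsSquare (a * m) then 0 else ag m ^ 2) = 1 / Real.pi^2 * ∑' m : ℕ, (if IsSquare (a * m) then 0 else
              (Nat.card {p : ℤ × ℤ // p.1 ^ 2 + p.2 ^ 2 = (m : ℤ)} : ℝ)^2 * (m:ℝ) ^ (-(3/2):ℝ)) := by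
    rw [← tsum_mul_left]
    congr 1
    funext m
    split_ifs
    · simp
    · rw [e3]
      have : (m:ℝ) ^ (-(3/2):ℝ) = ((m:ℝ) ^ (-(3/4):ℝ))^2 := by
        rw [← Real.rpow_natCast, ← Real.rpow_mul (Nat.cast_nonneg m)]; norm_num
      rw [this]; field_simp
  have hc : cI ag (3 * Real.pi/4) (b / (2 * √(a:ℝ))) a = 1 / Real.pi^2 * ((∑' m : ℕ, if IsSquare (a * m) then
              (Nat.card {p : ℤ × ℤ // p.1 ^ 2 + p.2 ^ 2 = (m : ℤ)} : ℝ) * (m:ℝ) ^ (-(3/4):ℝ) * Real.cos (Real.pi * b * √((m:ℝ) / a) - 3 * Real.pi / 4) else 0)^2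
            + 1/2 * ∑' m : ℕ, if IsSquare (a * m) then 0 else
              (Nat.card {p : ℤ × ℤ // p.1 ^ 2 + p.2 ^ 2 = (m : ℤ)} : ℝ)^2 * (m:ℝ) ^ (-(3/2):ℝ)) := by
    unfold cI
    rw [c1, c2]; ring
  rw [hc]
  congr 1
  congr 1
  · apply Finset.sum_congr rfl
    intro n _
    unfold Ec
    have hx := hP n
    set x := (a:ℝ) * (n:ℝ)^2 + b * n + c with hxd
    have h4 : 0 < x ^ (1/4:ℝ) := by positivity
    have h5 : √x = (x ^ (1/4:ℝ))^2 := by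
      rw [Real.sqrt_eq_rpow, ← Real.rpow_natCast (x ^ (1/4:ℝ)), ← Real.rpow_mul hx.le]; norm_num
    rw [h5, div_pow]
    field_simp
  · field_simp

open Pool.Agent.H383.Div in
open Classical in
theorem div_ms (a : ℕ) (b c : ℝ) (ha : 0 < a) (hP : ∀ n : ℕ, 0 < (a:ℝ) * (n:ℝ)^2 + b * n + c) :
    ∃ δ : ℝ, 0 < δ ∧ ∃ (C : ℝ) (N0 : ℕ), ∀ N : ℕ, N0 ≤ N →
      |∑ n ∈ Finset.range N, ((∑ j ∈ Finset.Icc 1 ⌊(a:ℝ) * (n:ℝ)^2 + b * n + c⌋₊, (j.divisors.card : ℝ))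
          - ((a:ℝ) * (n:ℝ)^2 + b * n + c) * Real.log ((a:ℝ) * (n:ℝ)^2 + b * n + c)
          - (2 * Real.eulerMascheroniConstant - 1) * ((a:ℝ) * (n:ℝ)^2 + b * n + c)) ^ 2
        - √(a:ℝ) / (4 * Real.pi ^ 2) * ((∑' m : ℕ, if IsSquare (4 * a * m) then
              (m.divisors.card : ℝ) * (m:ℝ) ^ (-(3/4):ℝ) * Real.cos (2 * Real.pi * b * √((m:ℝ) / a) - Real.pi / 4) else 0)^2
            + 1/2 * ∑' m : ℕ, if IsSquare (4 * a * m) then 0 else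
              (m.divisors.card : ℝ)^2 * (m:ℝ) ^ (-(3/2):ℝ)) * (N:ℝ)^2| ≤ C * (N:ℝ) ^ (2 - δ) := by
  obtain ⟨δ, hδ, C, N0, h⟩ := ms_full div_data a b c ha hP
  refine ⟨δ, hδ, C, N0, fun N hN => ?_⟩
  refine le_trans (le_of_eq ?_) (h N hN)
  have ha' : (0:ℝ) < a := by exact_mod_cast ha
  have hpi := Real.pi_pos
  have h2 : √(2:ℝ)^2 = 2 := Real.sq_sqrt (by norm_num)
  have h20 : (0:ℝ) < √2 := by positivity
  have e3 : ∀ m : ℕ, ad m = (m.divisors.card : ℝ) * (m : ℝ) ^ (-(3 / 4) : ℝ) * (1 / (Real.pi * √2)) := by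
    intro m; unfold ad Pool.Agent.H387R2.Vor.dv; rfl
  have c1 : ∑' m, ad m * cf (Real.pi/4) (b / √(a:ℝ)) (4 * a) m = 1 / (Real.pi * √2) * (∑' m : ℕ, if IsSquare (4 * a * m) then
              (m.divisors.card : ℝ) * (m:ℝ) ^ (-(3/4):ℝ) * Real.cos (2 * Real.pi * b * √((m:ℝ) / a) - Real.pi / 4) else 0) := by
    rw [← tsum_mul_left]
    congr 1
    funext m
    unfold cf
    have e2 : 2 * Real.pi * (b / √(a:ℝ) * √(m:ℝ)) - Real.pi/4 = 2 * Real.pi * b * √((m:ℝ) / a) - Real.pi/4 := by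
      rw [Real.sqrt_div (Nat.cast_nonneg m)]; field_simp
    rw [e2, e3]
    split_ifs
    · ring
    · simp
  have c2 : ∑' m, (if IsSquare (4 * a * m) then 0 else ad m ^ 2) = 1 / (2 * Real.pi^2) * ∑' m : ℕ, (if IsSquare (4 * a * m) then 0 else
              (m.divisors.card : ℝ)^2 * (m:ℝ) ^ (-(3/2):ℝ)) := by
    rw [← tsum_mul_left]
    congr 1
    funext m
    split_ifs
    · simp
    · rw [e3]
      have : (m:ℝ) ^ (-(3/2):ℝ) = ((m:ℝ) ^ (-(3/4):ℝ))^2 := by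
        rw [← Real.rpow_natCast, ← Real.rpow_mul (Nat.cast_nonneg m)]; norm_num
      rw [this]; field_simp; rw [h2]
  have hc : cI ad (Real.pi/4) (b / √(a:ℝ)) (4 * a) = 1 / (2 * Real.pi^2) * ((∑' m : ℕ, if IsSquare (4 * a * m) then
              (m.divisors.card : ℝ) * (m:ℝ) ^ (-(3/4):ℝ) * Real.cos (2 * Real.pi * b * √((m:ℝ) / a) - Real.pi / 4) else 0)^2
            + 1/2 * ∑' m : ℕ, if IsSquare (4 * a * m) then 0 else
              (m.divisors.card : ℝ)^2 * (m:ℝ) ^ (-(3/2):ℝ)) := by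
    unfold cI
    rw [c1, c2, mul_pow, div_pow, mul_pow, h2]; ring
  rw [hc]
  congr 1
  congr 1
  · apply Finset.sum_congr rfl
    intro n _
    unfold Edv
    have hx := hP n
    set x := (a:ℝ) * (n:ℝ)^2 + b * n + c with hxd
    have h4 : 0 < x ^ (1/4:ℝ) := by positivity
    have h5 : √x = (x ^ (1/4:ℝ))^2 := by
      rw [Real.sqrt_eq_rpow, ← Real.rpow_natCast (x ^ (1/4:ℝ)), ← Real.rpow_mul hx.le]; norm_num
    rw [h5, div_pow]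
    field_simp
  · field_simp
    ring

end Pool.Agent.H425R3.MS
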