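import Mathlib
import Pool.Agent.H425R3.MS.A6
import Pool.Agent.H425R3.PK.Zeta2

namespace Pool.Agent.H425R3.MS

lemma sq4 (a m : ℕ) : IsSquare (4 * a * m) ↔ IsSquare (a * m) := by
  constructor
  · rintro ⟨k, hk⟩
    have h2 : 2 ∣ k := by
      have h1 : 2 ∣ k * k := ⟨2 * a * m, by rw [← hk]; ring⟩
      rcases (Nat.prime_two.dvd_mul).mp h1 with h | h <;> exact h
    obtain ⟨j, rfl⟩ := h2
    exact ⟨j, by nlinarith⟩
  · rintro ⟨k, hk⟩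
    exact ⟨2 * k, by rw [mul_assoc, hk]; ring⟩

open Classical in
theorem div_ms2 (D : ℝ → ℝ)
    (hD : ∀ x : ℝ, D x =
      (∑ j ∈ Finset.Icc 1 ⌊x⌋₊, (((ArithmeticFunction.zeta ^ 2 : ArithmeticFunction ℕ) j : ℕ) : ℝ))
        - x * (Real.log x + 2 * Real.eulerMascheroniConstant - 1))
    (a : ℕ) (b c : ℝ) (ha : 0 < a) (hP : ∀ n : ℕ, 0 < (a:ℝ) * (n:ℝ)^2 + b * n + c) :
    ∃ δ : ℝ, 0 < δ ∧ ∃ (C : ℝ) (N₀ : ℕ), ∀ N : ℕ, N₀ ≤ N →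
      |∑ n ∈ Finset.range N, D ((a:ℝ) * (n:ℝ)^2 + b * n + c) ^ 2
        - √(a:ℝ) / (4 * Real.pi ^ 2) * ((∑' m : ℕ, if IsSquare (a * m) then
              (m.divisors.card : ℝ) * (m:ℝ) ^ (-(3/4):ℝ) * Real.cos (2 * Real.pi * b * √((m:ℝ) / a) - Real.pi / 4) else 0)^2
            + 1/2 * ∑' m : ℕ, if IsSquare (a * m) then 0 else
              (m.divisors.card : ℝ)^2 * (m:ℝ) ^ (-(3/2):ℝ)) * (N:ℝ)^2| ≤ C * (N:ℝ) ^ (2 - δ) := by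
  obtain ⟨δ, hδ, C, N0, h⟩ := div_ms a b c ha hP
  simp only [sq4] at h
  refine ⟨δ, hδ, C, N0, fun N hN => ?_⟩
  refine le_trans (le_of_eq ?_) (h N hN)
  congr 2
  apply Finset.sum_congr rfl
  intro n _
  rw [hD, Finset.sum_congr rfl (fun j _ => Pool.Agent.H425R3.PK.zeta_sq_apply j)]
  ring

end Pool.Agent.H425R3.MS
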